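import Pool.Agent.H500.SV.Stm
import Pool.Agent.H643.AS.Bridge
import Pool.Graph.R_seed8.W352.ChAbs.Frob

/-!
# The field of an open normal subgroup (`S_Fld`, by helper967 for helper500)
-/

set_option autoImplicit false
set_option linter.unusedSectionVars false

namespace Pool.Agent.H967.SV.Fld

open NumberField IsDedekindDomain Filter Topology
open Pool.Agent.W401.Cheb (GK IsFrob IsInert)
open Pool.Agent.H500.SV (Above)
open Pool.Agent.H500.R2 (UnrOut)

section
variable {K : Type} [Field K] [NumberField K]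
variable {M : IntermediateField K (AlgebraicClosure K)}
variable (e : AlgebraicClosure M ≃ₐ[M] AlgebraicClosure K)

/-- the homomorphism of the Galois groups -/
noncomputable def io : GK M →* GK K where
  toFun σ := ((e.symm.trans σ).trans e).restrictScalars K
  map_one' := by
    apply AlgEquiv.ext
    intro x
    exact e.apply_symm_apply x
  map_mul' σ τ := by
    apply AlgEquiv.ext
    intro x
    show e (σ (τ (e.symm x))) = e (σ (e.symm (e (τ (e.symm x)))))
    rw [e.symm_apply_apply]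

theorem io_apply (σ : GK M) (x : AlgebraicClosure K) : io e σ x = e (σ (e.symm x)) := rfl

theorem io_inj : Function.Injective (io e) := by
  intro σ τ h
  apply AlgEquiv.ext
  intro x
  have h1 := DFunLike.congr_fun h (e x)
  rw [io_apply, io_apply, e.symm_apply_apply] at h1
  exact e.injective h1

theorem io_mem (σ : GK M) : io e σ ∈ M.fixingSubgroup := by
  rw [IntermediateField.mem_fixingSubgroup_iff]
  intro x hx
  rw [io_apply]
  have h1 : e.symm x = algebraMap M (AlgebraicClosure M) ⟨x, hx⟩ := e.symm.commutes ⟨x, hx⟩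
  rw [h1, σ.commutes, e.commutes]
  rfl

theorem exists_lift {τ : GK K} (hτ : τ ∈ M.fixingSubgroup) : ∃ σ : GK M, io e σ = τ := by
  refine ⟨(e.trans (IntermediateField.fixingSubgroupEquiv M ⟨τ, hτ⟩)).trans e.symm, ?_⟩
  apply AlgEquiv.ext
  intro x
  show e (e.symm (τ (e (e.symm x)))) = τ x
  rw [e.apply_symm_apply, e.apply_symm_apply]

theorem io_range : (io e).range = M.fixingSubgroup := by
  ext τ
  constructor
  · rintro ⟨σ, rfl⟩
    exact io_mem e σ
  · intro h
    obtain ⟨σ, hσ⟩ := exists_lift e h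
    exact ⟨σ, hσ⟩

/-- an automorphism which fixes a basis fixes the field -/
theorem fix_of_basis {F Ω : Type} [Field F] [Field Ω] [Algebra F Ω] (E : IntermediateField F Ω)
    [FiniteDimensional F E] (σ : Gal(Ω/F))
    (h : ∀ i, σ ((Module.finBasis F E i : E) : Ω) = ((Module.finBasis F E i : E) : Ω)) :
    σ ∈ E.fixingSubgroup := by
  rw [IntermediateField.mem_fixingSubgroup_iff]
  intro x hx
  have h1 : (σ.toLinearMap.comp E.val.toLinearMap : E →ₗ[F] Ω) = E.val.toLinearMap :=
    (Module.finBasis F E).ext fun i => h i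
  exact DFunLike.congr_fun h1 (⟨x, hx⟩ : E)

theorem comap_open (V : Subgroup (GK K)) (hV : IsOpen (V : Set (GK K))) :
    IsOpen ((V.comap (io e) : Subgroup (GK M)) : Set (GK M)) := by
  obtain ⟨E, hE, hEV⟩ := (krullTopology_mem_nhds_one_iff K (AlgebraicClosure K) _).1
    (hV.mem_nhds V.one_mem)
  apply Subgroup.isOpen_of_mem_nhds (g := 1)
  rw [krullTopology_mem_nhds_one_iff]
  let S : Set (AlgebraicClosure M) :=
    Set.range fun i => e.symm ((Module.finBasis K E i : E) : AlgebraicClosure K)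
  have hSf : Finite S := Set.finite_range _
  have hfd : FiniteDimensional M (IntermediateField.adjoin M S) :=
    IntermediateField.finiteDimensional_adjoin fun x _ => Algebra.IsIntegral.isIntegral x
  refine ⟨IntermediateField.adjoin M S, hfd, fun σ hσ => ?_⟩
  apply hEV
  apply fix_of_basis
  intro i
  rw [io_apply]
  have h1 : e.symm ((Module.finBasis K E i : E) : AlgebraicClosure K) ∈
      IntermediateField.adjoin M S := IntermediateField.subset_adjoin M S ⟨i, rfl⟩
  rw [(IntermediateField.mem_fixingSubgroup_iff _ σ).1 hσ _ h1, e.apply_symm_apply]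

theorem map_open [FiniteDimensional K M] (V : Subgroup (GK M)) (hV : IsOpen (V : Set (GK M))) :
    IsOpen ((V.map (io e) : Subgroup (GK K)) : Set (GK K)) := by
  obtain ⟨E, hE, hEV⟩ := (krullTopology_mem_nhds_one_iff M (AlgebraicClosure M) _).1
    (hV.mem_nhds V.one_mem)
  apply Subgroup.isOpen_of_mem_nhds (g := 1)
  rw [krullTopology_mem_nhds_one_iff]
  let S : Set (AlgebraicClosure K) :=
    Set.range fun i => e ((Module.finBasis M E i : E) : AlgebraicClosure M)
  have hSf : Finite S := Set.finite_range _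
  have hfd : FiniteDimensional K (IntermediateField.adjoin K S) :=
    IntermediateField.finiteDimensional_adjoin fun x _ => Algebra.IsIntegral.isIntegral x
  refine ⟨M ⊔ IntermediateField.adjoin K S, IntermediateField.finiteDimensional_sup _ _,
    fun τ hτ => ?_⟩
  have hτM : τ ∈ M.fixingSubgroup := IntermediateField.fixingSubgroup_le le_sup_left hτ
  have hτS : τ ∈ (IntermediateField.adjoin K S).fixingSubgroup :=
    IntermediateField.fixingSubgroup_le le_sup_right hτ
  obtain ⟨σ, rfl⟩ := exists_lift e hτM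
  refine ⟨σ, hEV ?_, rfl⟩
  apply fix_of_basis
  intro i
  have h1 : e ((Module.finBasis M E i : E) : AlgebraicClosure M) ∈
      IntermediateField.adjoin K S := IntermediateField.subset_adjoin K S ⟨i, rfl⟩
  have h2 := (IntermediateField.mem_fixingSubgroup_iff _ _).1 hτS _ h1
  rw [io_apply, e.symm_apply_apply] at h2
  exact e.injective h2

/-- the isomorphism of the rings of integers -/
noncomputable def up : 𝓞 (AlgebraicClosure M) →+* 𝓞 (AlgebraicClosure K) :=
  RingOfIntegers.mapRingHom (e : AlgebraicClosure M →+* AlgebraicClosure K)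

noncomputable def dn : 𝓞 (AlgebraicClosure K) →+* 𝓞 (AlgebraicClosure M) :=
  RingOfIntegers.mapRingHom (e.symm : AlgebraicClosure K →+* AlgebraicClosure M)

theorem up_coe (x : 𝓞 (AlgebraicClosure M)) :
    ((up e x : 𝓞 (AlgebraicClosure K)) : AlgebraicClosure K) = e x := rfl

theorem dn_coe (x : 𝓞 (AlgebraicClosure K)) :
    ((dn e x : 𝓞 (AlgebraicClosure M)) : AlgebraicClosure M) = e.symm x := rfl

theorem dn_up (x : 𝓞 (AlgebraicClosure M)) : dn e (up e x) = x := by
  apply RingOfIntegers.ext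
  rw [dn_coe, up_coe, e.symm_apply_apply]

theorem up_dn (x : 𝓞 (AlgebraicClosure K)) : up e (dn e x) = x := by
  apply RingOfIntegers.ext
  rw [up_coe, dn_coe, e.apply_symm_apply]

theorem dn_alg [NumberField M] (a : 𝓞 K) :
    dn e (algebraMap (𝓞 K) (𝓞 (AlgebraicClosure K)) a) =
      algebraMap (𝓞 M) (𝓞 (AlgebraicClosure M)) (algebraMap (𝓞 K) (𝓞 M) a) := by
  apply RingOfIntegers.ext
  rw [dn_coe]
  exact e.symm.commutes (algebraMap K M (a : K))

theorem up_alg [NumberField M] (a : 𝓞 M) :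
    up e (algebraMap (𝓞 M) (𝓞 (AlgebraicClosure M)) a) =
      algebraMap (𝓞 M) (𝓞 (AlgebraicClosure K)) a := by
  apply RingOfIntegers.ext
  rw [up_coe]
  exact e.commutes (a : M)

theorem dn_smul (σ : GK M) (x : 𝓞 (AlgebraicClosure K)) :
    dn e (io e σ • x) = σ • dn e x := by
  apply RingOfIntegers.ext
  rw [dn_coe]
  show e.symm (e (σ (e.symm (x : AlgebraicClosure K)))) = σ (e.symm (x : AlgebraicClosure K))
  rw [e.symm_apply_apply]

theorem up_smul (σ : GK M) (x : 𝓞 (AlgebraicClosure M)) :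
    up e (σ • x) = io e σ • up e x := by
  apply RingOfIntegers.ext
  rw [up_coe]
  show e (σ (x : AlgebraicClosure M)) = e (σ (e.symm (e (x : AlgebraicClosure M))))
  rw [e.symm_apply_apply]

theorem dn_max {Q : Ideal (𝓞 (AlgebraicClosure M))} (hQ : Q.IsMaximal) :
    (Q.comap (dn e)).IsMaximal :=
  Ideal.comap_isMaximal_of_surjective _ fun x => ⟨up e x, dn_up e x⟩

theorem up_max {Q : Ideal (𝓞 (AlgebraicClosure K))} (hQ : Q.IsMaximal) :
    (Q.comap (up e)).IsMaximal :=
  Ideal.comap_isMaximal_of_surjective _ fun x => ⟨dn e x, up_dn e x⟩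

theorem dn_above [NumberField M] {v : HeightOneSpectrum (𝓞 K)} {w : HeightOneSpectrum (𝓞 M)}
    (h : Above w v) {Q : Ideal (𝓞 (AlgebraicClosure M))}
    (hQ : Q.comap (algebraMap (𝓞 M) (𝓞 (AlgebraicClosure M))) = w.asIdeal) :
    (Q.comap (dn e)).comap (algebraMap (𝓞 K) (𝓞 (AlgebraicClosure K))) = v.asIdeal := by
  have h' : w.asIdeal.comap (algebraMap (𝓞 K) (𝓞 M)) = v.asIdeal := h
  rw [← h', ← hQ]
  ext a
  rw [Ideal.mem_comap, Ideal.mem_comap, dn_alg]
  rfl

/-- the place of `M` below an ideal above `v` -/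
theorem exists_w [NumberField M] {v : HeightOneSpectrum (𝓞 K)}
    {Q : Ideal (𝓞 (AlgebraicClosure K))} (hQm : Q.IsMaximal)
    (hQv : Q.comap (algebraMap (𝓞 K) (𝓞 (AlgebraicClosure K))) = v.asIdeal) :
    ∃ w : HeightOneSpectrum (𝓞 M), Above w v ∧
      (Q.comap (up e)).comap (algebraMap (𝓞 M) (𝓞 (AlgebraicClosure M))) = w.asIdeal := by
  have hup := up_max e hQm
  have hp : ((Q.comap (up e)).comap (algebraMap (𝓞 M) (𝓞 (AlgebraicClosure M)))).IsPrime := by
    have := hup.isPrime
    exact Ideal.comap_isPrime _ _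
  have hv : ((Q.comap (up e)).comap (algebraMap (𝓞 M) (𝓞 (AlgebraicClosure M)))).comap
      (algebraMap (𝓞 K) (𝓞 M)) = v.asIdeal := by
    rw [← hQv]
    ext a
    rw [Ideal.mem_comap, Ideal.mem_comap, Ideal.mem_comap, Ideal.mem_comap, ← dn_alg e, up_dn]
  refine ⟨⟨_, hp, fun h0 => v.ne_bot ?_⟩, hv, rfl⟩
  rw [← hv, h0, ← RingHom.ker_eq_comap_bot]
  exact (RingHom.injective_iff_ker_eq_bot _).1 (FaithfulSMul.algebraMap_injective (𝓞 K) (𝓞 M))

theorem inert [NumberField M] {v : HeightOneSpectrum (𝓞 K)} {w : HeightOneSpectrum (𝓞 M)}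
    (h : Above w v) {s : GK M} (hs : IsInert w s) : IsInert v (io e s) := by
  obtain ⟨Q, hQm, hQw, hQ⟩ := hs
  refine ⟨Q.comap (dn e), dn_max e hQm, dn_above e h hQw, fun x => ?_⟩
  rw [Ideal.mem_comap, map_sub, dn_smul]
  exact hQ _

theorem inert' [NumberField M] {v : HeightOneSpectrum (𝓞 K)} {s : GK M}
    (hs : IsInert v (io e s)) : ∃ w : HeightOneSpectrum (𝓞 M), Above w v ∧ IsInert w s := by
  obtain ⟨Q, hQm, hQv, hQ⟩ := hs
  obtain ⟨w, hw, hQw⟩ := exists_w e hQm hQv
  refine ⟨w, hw, Q.comap (up e), up_max e hQm, hQw, fun x => ?_⟩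
  rw [Ideal.mem_comap, map_sub, up_smul]
  exact hQ _

theorem frob_pow {v : HeightOneSpectrum (𝓞 K)} {σ : GK K} {Q : Ideal (𝓞 (AlgebraicClosure K))}
    (hσ : ∀ x : 𝓞 (AlgebraicClosure K), σ • x - x ^ Ideal.absNorm v.asIdeal ∈ Q) (f : ℕ) :
    ∀ x : 𝓞 (AlgebraicClosure K), (σ ^ f) • x - x ^ Ideal.absNorm v.asIdeal ^ f ∈ Q := by
  induction f with
  | zero =>
    intro x
    rw [pow_zero, pow_zero, one_smul, pow_one, sub_self]
    exact Q.zero_mem
  | succ f ih =>
    intro x
    have h1 := ih (σ • x)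
    rw [smul_smul, ← pow_succ] at h1
    have h2 : (σ • x) ^ Ideal.absNorm v.asIdeal ^ f - x ^ Ideal.absNorm v.asIdeal ^ (f + 1) ∈ Q := by
      have h3 : x ^ Ideal.absNorm v.asIdeal ^ (f + 1) =
          (x ^ Ideal.absNorm v.asIdeal) ^ Ideal.absNorm v.asIdeal ^ f := by
        rw [← pow_mul, pow_succ']
      rw [h3, ← Ideal.Quotient.eq, map_pow, map_pow]
      congr 1
      exact Ideal.Quotient.eq.2 (hσ x)
    have h4 := Q.add_mem h1 h2
    rwa [sub_add_sub_cancel] at h4

theorem frob [NumberField M] {v : HeightOneSpectrum (𝓞 K)} {w : HeightOneSpectrum (𝓞 M)}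
    (h : Above w v) : ∃ f : ℕ, Ideal.absNorm w.asIdeal = Ideal.absNorm v.asIdeal ^ f ∧
    ∀ s, IsFrob w s → ∃ σ τ, IsFrob v σ ∧ IsInert v τ ∧ io e s = σ ^ f * τ := by
  have hu : w.under (𝓞 K) = v := HeightOneSpectrum.ext h
  refine ⟨Pool.Agent.Q5.BR.rdeg K w, ?_, ?_⟩
  · rw [Pool.Agent.Q5.BR.absNorm_rdeg (K := K) w, hu]
  rintro s ⟨Q, hQm, hQw, hQ⟩
  have hm := dn_max e hQm
  have hv := dn_above e h hQw
  obtain ⟨σ, hσ⟩ := Pool.Agent.W352.ChAbs.exists_frob v (Q.comap (dn e)) hv
  have hs : ∀ x : 𝓞 (AlgebraicClosure K),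
      io e s • x - x ^ Ideal.absNorm w.asIdeal ∈ Q.comap (dn e) := by
    intro x
    rw [Ideal.mem_comap, map_sub, dn_smul, map_pow]
    exact hQ _
  have hf := frob_pow hσ (Pool.Agent.Q5.BR.rdeg K w)
  rw [Pool.Agent.Q5.BR.absNorm_rdeg (K := K) w, hu] at hs
  generalize Pool.Agent.Q5.BR.rdeg K w = f at hf hs ⊢
  refine ⟨σ, (σ ^ f)⁻¹ * io e s, ⟨_, hm, hv, hσ⟩, ⟨_, hm, hv, fun x => ?_⟩, by
    rw [mul_inv_cancel_left]⟩
  set y : 𝓞 (AlgebraicClosure K) := ((σ ^ f)⁻¹ * io e s) • x - x with hy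
  have h1 : (σ ^ f) • y ∈ Q.comap (dn e) := by
    have h2 : (σ ^ f) • y = (io e s • x - x ^ Ideal.absNorm v.asIdeal ^ f) -
        ((σ ^ f) • x - x ^ Ideal.absNorm v.asIdeal ^ f) := by
      rw [hy, smul_sub, smul_smul, mul_inv_cancel_left]
      ring
    rw [h2]
    exact Ideal.sub_mem _ (hs x) (hf x)
  have h3 : y ^ Ideal.absNorm v.asIdeal ^ f ∈ Q.comap (dn e) := by
    have h4 := Ideal.sub_mem _ h1 (hf y)
    rwa [sub_sub_cancel] at h4
  exact hm.isPrime.mem_of_pow_mem _ h3

/-- a field in which `x ^ q = x` has at most `q` elements -/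
theorem card_le_of_pow {k : Type} [Field k] {q : ℕ} (hq : 1 < q) (h : ∀ x : k, x ^ q = x) :
    Nat.card k ≤ q := by
  classical
  have hp : (Polynomial.X ^ q - Polynomial.X : Polynomial k) ≠ 0 :=
    FiniteField.X_pow_card_sub_X_ne_zero k hq
  have hsub : (Set.univ : Set k) ⊆ ((Polynomial.X ^ q - Polynomial.X : Polynomial k).roots.toFinset :
      Set k) := by
    intro x _
    rw [Finset.mem_coe, Multiset.mem_toFinset, Polynomial.mem_roots hp, Polynomial.IsRoot.def,
      Polynomial.eval_sub, Polynomial.eval_pow, Polynomial.eval_X, h x, sub_self]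
  have hfin : (Set.univ : Set k).Finite := (Finset.finite_toSet _).subset hsub
  have h1 : (Set.univ : Set k).ncard ≤ ((Polynomial.X ^ q - Polynomial.X :
      Polynomial k).roots.toFinset : Set k).ncard := Set.ncard_le_ncard hsub (Finset.finite_toSet _)
  rw [Set.ncard_univ, Set.ncard_coe_finset] at h1
  refine h1.trans ((Multiset.toFinset_card_le _).trans ((Polynomial.card_roots' _).trans ?_))
  rw [FiniteField.X_pow_card_sub_X_natDegree_eq k hq]

theorem frob' [NumberField M] {v : HeightOneSpectrum (𝓞 K)} {s : GK M}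
    (hs : IsFrob v (io e s)) : ∃ w : HeightOneSpectrum (𝓞 M), Above w v ∧
      Ideal.absNorm w.asIdeal = Ideal.absNorm v.asIdeal ∧ IsFrob w s := by
  obtain ⟨Q, hQm, hQv, hQ⟩ := hs
  obtain ⟨w, hw, hQw⟩ := exists_w e hQm hQv
  have hu : w.under (𝓞 K) = v := HeightOneSpectrum.ext hw
  have hx : ∀ x : 𝓞 M, x ^ Ideal.absNorm v.asIdeal - x ∈ w.asIdeal := by
    intro x
    have h1 := hQ (up e (algebraMap (𝓞 M) (𝓞 (AlgebraicClosure M)) x))
    have h2 : io e s • up e (algebraMap (𝓞 M) (𝓞 (AlgebraicClosure M)) x) =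
        up e (algebraMap (𝓞 M) (𝓞 (AlgebraicClosure M)) x) := by
      rw [← up_smul, Pool.Agent.W401.Frob.smul_alg]
    rw [h2, ← map_pow, ← map_sub, ← map_pow, ← map_sub] at h1
    have h3 : x - x ^ Ideal.absNorm v.asIdeal ∈ w.asIdeal := by
      rw [← hQw]
      exact h1
    have h4 := w.asIdeal.neg_mem h3
    rwa [neg_sub] at h4
  have hq : 1 < Ideal.absNorm v.asIdeal := by
    have h0 : Ideal.absNorm v.asIdeal ≠ 0 := fun h => v.ne_bot (Ideal.absNorm_eq_zero_iff.1 h)
    have h1 : Ideal.absNorm v.asIdeal ≠ 1 := fun h =>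
      v.isPrime.ne_top (Ideal.absNorm_eq_one_iff.1 h)
    omega
  have hle : Ideal.absNorm w.asIdeal ≤ Ideal.absNorm v.asIdeal := by
    have hwm : w.asIdeal.IsMaximal := w.isMaximal
    let _ : Field (𝓞 M ⧸ w.asIdeal) := Ideal.Quotient.field w.asIdeal
    have h1 : Ideal.absNorm w.asIdeal = Nat.card (𝓞 M ⧸ w.asIdeal) := by
      rw [Ideal.absNorm_apply, Submodule.cardQuot_apply]
    rw [h1]
    refine card_le_of_pow hq fun y => ?_
    obtain ⟨x, rfl⟩ := Ideal.Quotient.mk_surjective y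
    rw [← map_pow]
    exact Ideal.Quotient.eq.2 (hx x)
  have hge : Ideal.absNorm v.asIdeal ≤ Ideal.absNorm w.asIdeal := by
    rw [Pool.Agent.Q5.BR.absNorm_rdeg (K := K) w, hu]
    exact Nat.le_self_pow (Pool.Agent.Q5.BR.rdeg_pos (K := K) w).ne' _
  have heq : Ideal.absNorm w.asIdeal = Ideal.absNorm v.asIdeal := le_antisymm hle hge
  refine ⟨w, hw, heq, Q.comap (up e), up_max e hQm, hQw, fun x => ?_⟩
  rw [heq, Ideal.mem_comap, map_sub, up_smul, map_pow]
  exact hQ _

end

theorem main : Pool.Agent.H500.SV.S_Fld := by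
  intro K _ _ U hUn hU
  obtain ⟨M, hfd, hgal, hfix⟩ := Pool.Agent.H643.AS.Bridge.exists_field U hU
  have hnf : NumberField M := NumberField.of_module_finite K M
  have hcl : IsAlgClosure M (AlgebraicClosure K) :=
    ⟨inferInstance, Algebra.IsAlgebraic.tower_top (K := K) M⟩
  let e : AlgebraicClosure M ≃ₐ[M] AlgebraicClosure K :=
    IsAlgClosure.equiv M (AlgebraicClosure M) (AlgebraicClosure K)
  refine ⟨M, inferInstance, hnf, inferInstance, io e, ?_⟩
  refine ⟨hgal, ?_, ?_, io_inj e, ?_, comap_open e, map_open e, fun v w h s hs => inert e h hs,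
    fun v s hs => inert' e hs, fun v w h => frob e h, ?_, fun v s hs => frob' e hs⟩
  · rw [← hfix]
    exact IntermediateField.finrank_eq_fixingSubgroup_index (F := K) (E' := AlgebraicClosure K) M
  · rintro ⟨r, hr⟩
    refine ⟨r, ?_⟩
    rw [← map_derivedSeries_eq (AlgEquiv.restrictNormalHom_surjective (F := K) (K₁ := M)
      (AlgebraicClosure K)) r, eq_bot_iff]
    rintro _ ⟨g, hg, rfl⟩
    have h1 : g ∈ (AlgEquiv.restrictNormalHom (F := K) (K₁ := AlgebraicClosure K) M).ker := by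
      rw [IntermediateField.restrictNormalHom_ker, hfix]
      exact hr hg
    exact h1
  · rw [io_range, hfix]
  · intro N hN v w h hv
    have h1 : Pool.Agent.Q92.AR.Unramified M v := by
      apply Pool.Agent.H643.AS.Bridge.unramified_of_inert
      intro σ hσ i
      have h1 : σ ∈ M.fixingSubgroup := by
        rw [hfix]
        exact hN v hv σ hσ
      apply AlgHom.ext
      intro z
      rw [Pool.Agent.W353.NF.act_apply]
      change σ (i z) = i z
      have h2 : i z ∈ M := by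
        have h3 : i.fieldRange = M := AlgHom.fieldRange_of_normal i
        have h4 : i z ∈ i.fieldRange := ⟨z, rfl⟩
        exact h3.le h4
      exact (IntermediateField.mem_fixingSubgroup_iff M σ).1 h1 _ h2
    exact h1 w (HeightOneSpectrum.ext h)

end Pool.Agent.H967.SV.Fld
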